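import Pool.Agent.Helper33.Mono.All
import Pool.Agent.Helper10.Mono.NewtonFan
import Pool.Agent.Helper24.Mono.LinkTri
import Pool.Agent.Helper32.Mono.LinkSum
import Pool.Agent.Helper20.Mono.Final2

/-!
# The local topological monodromy conjecture for Newton nondegenerate singularities containing no
coordinate plane

Let `f ≠ 0` be a polynomial in `n` variables with `f(0) = 0` such that for all `i ≠ j` some
monomial of `f` involves at most the variables `x_i, x_j` (in other words: `f` does not vanish
identically on any coordinate plane of dimension two; coordinate axes are allowed).  Everything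
below is defined from the exponent vectors of `f` (file `Pool/Agent/Helper20/Mono/Base.lean`):

* `ZDL (expo f) T` is the rational function of Denef and Loeser attached to the Newton polyhedron
  of `f`, computed through a simplicial fan `T` refining the dual fan (it is the local
  topological zeta function of `f` at the origin if `f` is nondegenerate);
* `zetaV (expo f)` is Varchenko's rational function (the monodromy zeta function of `f` at the
  origin if `f` is nondegenerate);
* `zetaV (projK k (expo f))` is Varchenko's rational function of the Newton polyhedron of `f` at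
  a general point of the `k`-th coordinate axis, when `f` vanishes on that axis.

The theorem: simplicial refinements `T` of the dual fan exist, and for each of them, every pole
`s₀` of `ZDL (expo f) T` is an integer, or `exp(2 π i s₀)` is a zero or a pole of
`zetaV (expo f)`, or of `zetaV (projK k (expo f))` for some `k` such that `f` vanishes on the
`k`-th axis.
-/

namespace Pool.Agent.Helper20.Mono.Old.NondegenerateAxes

open Mono

theorem result {n : ℕ} (f : MvPolynomial (Fin n) ℂ) (hf : f ≠ 0) (h0 : f.coeff 0 = 0)
    (hp : ∀ i j : Fin n, i ≠ j → ∃ d : Fin n →₀ ℕ, f.coeff d ≠ 0 ∧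
      ∀ l, l ≠ i → l ≠ j → d l = 0) :
    (∃ T : Fan n, Adapted (expo f) T) ∧
    ∀ T : Fan n, Adapted (expo f) T → ∀ s₀ : ℂ, (ZDL (expo f) T).denom.eval s₀ = 0 →
      (∃ k : ℤ, s₀ = k) ∨
      ZeroOrPole (zetaV (expo f)) (Complex.exp (2 * Real.pi * Complex.I * s₀)) ∨
      ∃ k : Fin n, (∀ d : ℕ, f.coeff (Finsupp.single k d) = 0) ∧
        ZeroOrPole (zetaV (projK k (expo f))) (Complex.exp (2 * Real.pi * Complex.I * s₀)) := by
  have hS := spanT
  have hSC := starCoverT
  have hW := wallT hS hSC
  have hB := bdryT hS hSC
  have hK := kFormula hS hW hB idxPos idxWall idxBdry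
  have hL := lowDegree hK
  have hA := algMain hS hSC
  have hBox := boxCount idxPos
  have hMF := multFormula hBox hS
  have hPV := pairVanish hL
  have hCK := classKill hPV
  have hCM := classMain hA hMF hCK
  have hCL := classLimit hL
  have hKZ := killZero volHeight
  have hLW := limitW hCL hKZ
  have hLO := laplaceOrthant hS hW hB idxPos idxWall idxBdry
  have hPr := primalAssembly idxPos hS hK hLO dualLattice (sideDual hS hSC) (sidePrimal hS hSC)
  have hSCt := simplexCount idxPos
  have hNV := nvolSum hSCt
  have hFZ := faceSumZ hNV
  have hFM := faceSumMult hNV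
  have hZW := zwIdentity hPr hK
  have hZF := zFormula hZW hFZ hLW
  have hDF := dualFan fanOfGeneric genericHeights coneGen
  exact Fin20.final2 newtonFan hDF hZF zEval poleLemma hCM hFM cycloLemma linkTri linkSum
    f hf h0 hp

end Pool.Agent.Helper20.Mono.Old.NondegenerateAxes
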